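import Mathlib

set_option autoImplicit false

namespace Pool.Agent.Results.MP_d04c84_co.Counter

open Filter Topology

/-- The sum on beta N: A is in oplus p q iff {x | A - x in q} is in p. -/
def oplus (p q : Ultrafilter ℕ+) : Ultrafilter ℕ+ := p.bind fun x => q.map fun y => x + y

/-- The product on beta N: A is in odot p q iff {x | A / x in q} is in p. -/
def odot (p q : Ultrafilter ℕ+) : Ultrafilter ℕ+ := p.bind fun x => q.map fun y => x * y

/-- two-sided ideals of a semigroup with operation op -/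
def IsIdeal {S : Type} (op : S → S → S) (I : Set S) : Prop :=
  I.Nonempty ∧ ∀ p ∈ I, ∀ q, op p q ∈ I ∧ op q p ∈ I

/-- p is in E(K(S)): an idempotent lying in every two-sided ideal, i.e. in the smallest one -/
def MinIdem {S : Type} (op : S → S → S) (p : S) : Prop :=
  op p p = p ∧ ∀ I, IsIdeal op I → p ∈ I

/-- additively central sets -/
def Central (A : Set ℕ+) : Prop := ∃ u, MinIdem oplus u ∧ A ∈ u

attribute [local instance] Ultrafilter.add Ultrafilter.addSemigroup Ultrafilter.mul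
  Ultrafilter.semigroup

abbrev B := Ultrafilter ℕ+

lemma mem_add (p q : B) (s : Set ℕ+) : s ∈ p + q ↔ {a | {b | a + b ∈ s} ∈ q} ∈ p := Iff.rfl
lemma mem_mul (p q : B) (s : Set ℕ+) : s ∈ p * q ↔ {a | {b | a * b ∈ s} ∈ q} ∈ p := Iff.rfl
lemma mem_bind {ι : Type} (F : Ultrafilter ι) (u : ι → B) (s : Set ℕ+) :
    s ∈ F.bind u ↔ {i | s ∈ u i} ∈ F := Filter.mem_bind'

lemma oplus_eq (p q : B) : oplus p q = p + q := by
  ext s; rw [oplus, mem_bind]; rfl
lemma odot_eq (p q : B) : odot p q = p * q := by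
  ext s; rw [odot, mem_bind]; rfl

lemma exists_min {S : Type} [Semigroup S] [TopologicalSpace S] [CompactSpace S] [T2Space S]
    (hc : ∀ r : S, Continuous (· * r)) (N0 : Set S) (c0 : IsClosed N0) (n0 : N0.Nonempty)
    (i0 : ∀ q : S, ∀ p ∈ N0, q * p ∈ N0) :
    ∃ u ∈ N0, u * u = u ∧ ∀ q : S, ∃ t : S, t * q * u = u := by
  let T : Set (Set S) := {N | IsClosed N ∧ N.Nonempty ∧ (∀ q : S, ∀ p ∈ N, q * p ∈ N)}
  obtain ⟨N, hN0, hN⟩ := zorn_superset_nonempty T (fun c hcs hc hne => by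
    refine ⟨⋂₀ c, ⟨isClosed_sInter fun t ht => (hcs ht).1, ?_, ?_⟩,
      fun s hs => Set.sInter_subset_of_mem hs⟩
    · have := hne.to_subtype
      exact IsCompact.nonempty_sInter_of_directed_nonempty_isCompact_isClosed
        (fun a ha b hb => by
          rcases hc.total ha hb with h | h
          · exact ⟨a, ha, subset_rfl, h⟩
          · exact ⟨b, hb, h, subset_rfl⟩) (fun t ht => (hcs ht).2.1)
        (fun t ht => (hcs ht).1.isCompact) (fun t ht => (hcs ht).1)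
    · exact fun q p hp t ht => (hcs ht).2.2 q p (hp t ht)) N0 ⟨c0, n0, i0⟩
  obtain ⟨h1, h2, h3⟩ := hN.prop
  obtain ⟨u, hu, huu⟩ := exists_idempotent_in_compact_subsemigroup hc N h2 h1.isCompact
    (fun x _ y hy => h3 x y hy)
  refine ⟨u, hN0 hu, huu, fun q => ?_⟩
  have hsub : (Set.range fun t : S => t * (q * u)) ⊆ N := by
    rintro _ ⟨t, rfl⟩
    exact h3 _ _ (h3 _ _ hu)
  have hmem : (Set.range fun t : S => t * (q * u)) ∈ T := by
    refine ⟨(isCompact_range (hc _)).isClosed, ⟨_, u, rfl⟩, ?_⟩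
    rintro s _ ⟨t, rfl⟩
    exact ⟨s * t, mul_assoc _ _ _⟩
  obtain ⟨t, ht⟩ := hN.le_of_le hmem hsub hu
  exact ⟨t, by rw [mul_assoc]; exact ht⟩

lemma exists_min_add (hc : ∀ r : B, Continuous (· + r)) (N0 : Set B) (c0 : IsClosed N0)
    (n0 : N0.Nonempty) (i0 : ∀ q : B, ∀ p ∈ N0, q + p ∈ N0) :
    ∃ u ∈ N0, u + u = u ∧ ∀ q : B, ∃ t : B, t + q + u = u :=
  @exists_min B { mul := (· + ·), mul_assoc := add_assoc } _ _ _ hc N0 c0 n0 i0

def MI (u : B) : Prop := u + u = u ∧ ∀ q : B, ∃ t : B, t + q + u = u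

lemma MI.minIdem {u : B} (h : MI u) : MinIdem oplus u := by
  refine ⟨by rw [oplus_eq, h.1], fun I ⟨⟨q, hq⟩, hI⟩ => ?_⟩
  obtain ⟨t, ht⟩ := h.2 q
  have := (hI _ (hI q hq t).2 u).1
  rwa [oplus_eq, oplus_eq, ht] at this

lemma resid (q : B) (y : ℕ+) : ∃ ρ : ZMod y, {x : ℕ+ | ((x : ℕ) : ZMod y) = ρ} ∈ q := by
  obtain ⟨ρ, h⟩ := Ultrafilter.eq_pure_of_finite (q.map fun x : ℕ+ => ((x : ℕ) : ZMod y))
  refine ⟨ρ, ?_⟩
  have : {ρ} ∈ q.map fun x : ℕ+ => ((x : ℕ) : ZMod y) := by rw [h]; simp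
  exact this

lemma idem_dvd {u : B} (h : u + u = u) (y : ℕ+) : {x : ℕ+ | (y : ℕ) ∣ x} ∈ u := by
  obtain ⟨ρ, hρ⟩ := resid u y
  have h2 := hρ
  rw [← h, mem_add] at h2
  obtain ⟨a, a1, a2⟩ := Ultrafilter.nonempty_of_mem (inter_mem hρ h2)
  obtain ⟨b, b1, b2⟩ := Ultrafilter.nonempty_of_mem (inter_mem hρ a2)
  simp only [Set.mem_ofPred_eq, PNat.add_coe, Nat.cast_add] at a1 b1 b2
  rw [a1, b1, add_eq_left] at b2
  refine mem_of_superset hρ fun x hx => ?_
  exact (ZMod.natCast_eq_zero_iff _ _).1 (hx.trans b2)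

lemma sc_add (y : ℕ+) (p q : B) : (p + q).map (y * ·) = p.map (y * ·) + q.map (y * ·) := by
  ext s
  simp only [Ultrafilter.mem_map, mem_add, Set.preimage, Set.mem_ofPred_eq, mul_add]

lemma MI.sc {u : B} (h : MI u) (y : ℕ+) : MI (u.map (y * ·)) := by
  refine ⟨by rw [← sc_add, h.1], fun q => ?_⟩
  obtain ⟨ρ, hρ⟩ := resid q y
  let c : ℕ+ := ⟨(-ρ).val + y, by have := y.pos; omega⟩
  have hq : pure c + q = (q.map fun x => PNat.divExact (c + x) y).map (y * ·) := by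
    change q.map (c + ·) = _
    rw [Ultrafilter.map_map]
    apply Ultrafilter.coe_injective
    simp only [Ultrafilter.coe_map]
    refine Filter.map_congr ?_
    filter_upwards [hρ] with x hx
    refine (PNat.mul_div_exact (PNat.dvd_iff.2 ?_)).symm
    refine (ZMod.natCast_eq_zero_iff _ _).1 ?_
    simp [c, hx]
  obtain ⟨t, ht⟩ := h.2 (q.map fun x => PNat.divExact (c + x) y)
  exact ⟨t.map (y * ·) + pure c, by rw [add_assoc _ (pure c), hq, ← sc_add, ← sc_add, ht]⟩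

def val (x : ℕ+) : ℕ := padicValNat 2 x
def lg (x : ℕ+) : ℕ := Nat.log 2 x

lemma val_add {a b : ℕ+} (h : 2 ^ (val a + 1) ∣ (b : ℕ)) : val (a + b) = val a := by
  have h1 : 2 ^ val a ∣ (a : ℕ) := pow_padicValNat_dvd
  have h2 : ¬ 2 ^ (val a + 1) ∣ (a : ℕ) := pow_succ_padicValNat_not_dvd a.ne_zero
  apply le_antisymm
  · by_contra hc
    have : 2 ^ (val a + 1) ∣ ((a + b : ℕ+) : ℕ) :=
      (padicValNat_dvd_iff_le (a + b).ne_zero).2 (not_le.1 hc)
    rw [PNat.add_coe] at this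
    exact h2 ((Nat.dvd_add_left h).1 this)
  · refine (padicValNat_dvd_iff_le (a + b).ne_zero).1 ?_
    rw [PNat.add_coe]
    exact dvd_add h1 ((pow_dvd_pow 2 (Nat.le_succ _)).trans h)

def pw (s : ℕ) : ℕ+ := ⟨2 ^ s, by positivity⟩

lemma central (σ τ : ℕ → ℕ) (hσ : ∀ r, r ≤ σ r) (hτ : ∀ r, r ≤ τ r) :
    ∃ u, MI u ∧ {x | (∃ r, val x = σ r) ∧ ∃ r, lg x = τ r} ∈ u := by
  let D : Set ℕ+ := {x | ∃ r, lg x = τ r}
  obtain ⟨e, he, hee, hmin⟩ := exists_min_add Ultrafilter.continuous_add_left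
    {q : B | D ∈ q ∧ ∀ a : ℕ+, {x | a + x ∈ D} ∈ q}
    (by
      simp only [Set.ofPred_and, Set.ofPred_forall]
      exact (ultrafilter_isClosed_basic _).inter
        (isClosed_iInter fun n => ultrafilter_isClosed_basic _))
    ⟨(hyperfilter ℕ).map fun r => pw (τ r),
      Ultrafilter.mem_map.2 (univ_mem' fun r => ⟨r, by simp [pw, lg]⟩), fun a => by
      rw [Ultrafilter.mem_map]
      refine mem_of_superset (Nat.hyperfilter_le_atTop (eventually_ge_atTop (a : ℕ)))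
        fun r hr => ⟨r, ?_⟩
      have h1 : (a : ℕ) < 2 ^ τ r := lt_of_le_of_lt (le_trans hr (hτ r)) Nat.lt_two_pow_self
      refine (Nat.log_eq_iff (Or.inr ⟨by norm_num, (a + pw (τ r)).ne_zero⟩)).2 ?_
      simp only [PNat.add_coe, pw, PNat.mk_coe, pow_succ]
      omega⟩
    (fun r q hq => ⟨(mem_add _ _ _).2 (univ_mem' hq.2), fun a => (mem_add _ _ _).2
      (univ_mem' fun b => by simpa only [Set.mem_ofPred_eq, add_assoc] using hq.2 (a + b))⟩)
  let V : Set ℕ+ := {x | ∃ r, val x = σ r}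
  have add2 : ∀ p q : B, (∀ k, {x : ℕ+ | 2 ^ k ∣ (x : ℕ)} ∈ p) → V ∈ p →
      (∀ k, {x : ℕ+ | 2 ^ k ∣ (x : ℕ)} ∈ q) →
      (∀ k, {x : ℕ+ | 2 ^ k ∣ (x : ℕ)} ∈ p + q) ∧ V ∈ p + q := fun p q h1 h2 h3 =>
    ⟨fun k => (mem_add _ _ _).2 (mem_of_superset (h1 k) fun a ha =>
        mem_of_superset (h3 k) fun b hb => dvd_add ha hb),
      (mem_add _ _ _).2 (mem_of_superset h2 fun a ⟨r, hr⟩ =>
        mem_of_superset (h3 (val a + 1)) fun b hb => ⟨r, (val_add hb).trans hr⟩)⟩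
  obtain ⟨u, ⟨u1, u2, u3⟩, huu⟩ := exists_idempotent_in_compact_add_subsemigroup
    Ultrafilter.continuous_add_left
    {q : B | q + e = q ∧ (∀ k, {x : ℕ+ | 2 ^ k ∣ (x : ℕ)} ∈ q) ∧ V ∈ q}
    ⟨((hyperfilter ℕ).map fun r => pw (σ r)) + e, by rw [add_assoc, hee],
      add2 _ _ (fun k => Ultrafilter.mem_map.2
        (mem_of_superset (Nat.hyperfilter_le_atTop (eventually_ge_atTop k))
          fun r hr => pow_dvd_pow 2 (le_trans hr (hσ r))))
        (Ultrafilter.mem_map.2 (univ_mem' fun r => ⟨r, by simp [pw, val]⟩)) fun k => idem_dvd hee (pw k)⟩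
    (IsClosed.isCompact (by
      simp only [Set.ofPred_and, Set.ofPred_forall]
      exact (isClosed_eq (Ultrafilter.continuous_add_left e) continuous_id).inter
        ((isClosed_iInter fun n => ultrafilter_isClosed_basic _).inter
          (ultrafilter_isClosed_basic _))))
    (fun x hx y hy => ⟨by rw [add_assoc, hy.1], add2 _ _ hx.2.1 hx.2.2 hy.2.1⟩)
  refine ⟨u, ⟨huu, fun q => ?_⟩, inter_mem u3 (?_ : D ∈ u)⟩
  · obtain ⟨t, ht⟩ := hmin (q + u)
    rw [add_assoc, add_assoc, u1] at ht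
    exact ⟨u + t, by rw [add_assoc, add_assoc, ht, u1]⟩
  · rw [← u1]
    exact (mem_add _ _ _).2 (univ_mem' he.2)

def f (k : ℕ) : ℕ := k * (k + 3)
def sg (k : ℕ) : ℕ := 2 ^ (f k + k + 2)

lemma f_lt {k l : ℕ} (h : k < l) : f k + k + 4 ≤ f l := by
  unfold f; nlinarith

lemma sg_ge (k : ℕ) : k < sg k :=
  lt_of_le_of_lt (by omega) (Nat.lt_two_pow_self : f k + k + 2 < 2 ^ (f k + k + 2))

lemma sg_lt {k l : ℕ} (h : k < l) : 4 * sg k ≤ sg l := by
  have := f_lt h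
  calc 4 * sg k = 2 ^ (f k + k + 4) := by unfold sg; ring
    _ ≤ sg l := Nat.pow_le_pow_right (by norm_num) (by omega)

def A : Set ℕ+ := {x | ∃ k κ : ℕ, k.unpair.1 = κ.unpair.1 ∧ sg k ≤ val x ∧
  val x ≤ sg k + k.unpair.1 ∧ f κ ≤ lg x ∧ lg x ≤ f κ + κ.unpair.1}

lemma val_lt (x : ℕ+) : val x < x :=
  lt_of_lt_of_le Nat.lt_two_pow_self (Nat.le_of_dvd x.pos pow_padicValNat_dvd)

lemma noconf (m n : ℕ+) (h1 : m ∈ A) (h2 : n ∈ A) (h3 : m + n ∈ A) (h4 : m * 2 ^ (n : ℕ) ∈ A) :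
    False := by
  obtain ⟨k1, κ1, a1, b1, c1, d1, e1⟩ := h1
  obtain ⟨k2, κ2, a2, b2, c2, d2, e2⟩ := h2
  obtain ⟨k3, κ3, a3, b3, c3, d3, e3⟩ := h3
  obtain ⟨k4, κ4, -, b4, c4, -, -⟩ := h4
  have hv : val (m * 2 ^ (n : ℕ)) = val m + n := by
    simp [val, padicValNat.mul m.ne_zero]
  rw [hv] at b4 c4
  have u1 := Nat.unpair_left_le k1
  have u2 := Nat.unpair_left_le k2
  have u3 := Nat.unpair_left_le k3
  have u4 := Nat.unpair_left_le k4
  have w1 := Nat.unpair_left_le κ1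
  have w2 := Nat.unpair_left_le κ2
  have w3 := Nat.unpair_left_le κ3
  have g1 := sg_ge k1
  have g2 := sg_ge k2
  have g3 := sg_ge k3
  have g4 := sg_ge k4
  have vn := val_lt n
  have vm := val_lt m
  rcases lt_trichotomy k1 k4 with h | rfl | h
  · have := sg_lt h
    have l1 : f k4 + k4 + 1 ≤ lg n := by
      refine Nat.le_log_of_pow_le (by norm_num) ?_
      have : sg k4 = 2 * 2 ^ (f k4 + k4 + 1) := by unfold sg; ring
      omega
    have l2 : lg n < f k4 + k4 + 3 := by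
      refine Nat.log_lt_of_lt_pow n.ne_zero ?_
      have : 2 * sg k4 = 2 ^ (f k4 + k4 + 3) := by unfold sg; ring
      omega
    rcases lt_trichotomy κ2 k4 with h' | rfl | h'
    · have := f_lt h'; omega
    · omega
    · have := f_lt h'; omega
  · have hv2 : val (n + m) = val n :=
      val_add ((pow_dvd_pow 2 (by omega : val n + 1 ≤ val m)).trans pow_padicValNat_dvd)
    rw [add_comm] at hv2
    have k23 : k2 = k3 := by
      rcases lt_trichotomy k2 k3 with h' | h' | h'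
      · have := sg_lt h'; omega
      · exact h'
      · have := sg_lt h'; omega
    have l1 : lg m ≤ lg (m + n) := Nat.log_mono_right (by simp)
    have l2 : lg (m + n) ≤ lg m + 1 := by
      rw [lg, lg, ← Nat.log_mul_base (by norm_num) m.ne_zero]
      refine Nat.log_mono_right ?_
      rw [PNat.add_coe]
      omega
    have κ13 : κ1 = κ3 := by
      rcases lt_trichotomy κ1 κ3 with h' | h' | h'
      · have := f_lt h'; omega
      · exact h'
      · have := f_lt h'; omega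
    subst k23 κ13
    omega
  · have := sg_lt h; omega

theorem result : ∃ p : Ultrafilter ℕ+, MinIdem odot p ∧ (∀ C ∈ p, Central C) ∧
    ∃ A ∈ p, ¬ ∃ m n : ℕ+, m ∈ A ∧ n ∈ A ∧ m + n ∈ A ∧ m * 2 ^ (n : ℕ) ∈ A := by
  choose u hu hC using fun i : ℕ => central (fun r => sg (Nat.pair i r)) (fun r => f (Nat.pair i r))
    (fun r => (Nat.right_le_pair i r).trans (sg_ge _).le)
    (fun r => (Nat.right_le_pair i r).trans (by unfold f; nlinarith))
  obtain ⟨p, ⟨p1, p2⟩, hpp, hmin⟩ := exists_min Ultrafilter.continuous_mul_left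
    {q : B | (∀ C : Set ℕ+, (¬ ∃ v, MI v ∧ C ∈ v) → Cᶜ ∈ q) ∧ ∀ y : ℕ+, {x | y * x ∈ A} ∈ q}
    (by
      simp only [Set.ofPred_and, Set.ofPred_forall]
      exact (isClosed_iInter fun C => isClosed_iInter fun _ => ultrafilter_isClosed_basic _).inter
        (isClosed_iInter fun n => ultrafilter_isClosed_basic _))
    ⟨(hyperfilter ℕ).bind u, fun C hC => (mem_bind _ _ _).2 (univ_mem' fun i =>
      Ultrafilter.compl_mem_iff_notMem.2 fun h => hC ⟨_, hu i, h⟩), fun y => (mem_bind _ _ _).2 (by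
      refine mem_of_superset (Nat.hyperfilter_le_atTop (eventually_ge_atTop (y : ℕ)))
        fun i hi => mem_of_superset (hC i) ?_
      rintro x ⟨⟨r, hr⟩, r', hr'⟩
      have hi' : (y : ℕ) ≤ i := hi
      have v1 : val (y * x) = val y + val x := by
        simp [val, padicValNat.mul y.ne_zero x.ne_zero]
      have v2 := val_lt y
      have l1 : lg x ≤ lg (y * x) := Nat.log_mono_right (Nat.le_mul_of_pos_left _ y.pos)
      have l2 : lg (y * x) < lg x + y + 1 := by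
        refine Nat.log_lt_of_lt_pow (y * x).ne_zero ?_
        rw [PNat.mul_coe, add_right_comm, pow_add, mul_comm]
        exact Nat.mul_lt_mul'' (Nat.lt_pow_succ_log_self (by norm_num) _) Nat.lt_two_pow_self
      refine ⟨Nat.pair i r, Nat.pair i r', by simp, by omega, ?_, by omega, ?_⟩ <;>
        simp only [Nat.unpair_pair] <;> omega)⟩
    (fun r q hq => ⟨fun C hC => (mem_mul _ _ _).2 (univ_mem' fun a =>
      hq.1 {b | a * b ∈ C} fun ⟨v, v1, v2⟩ => hC ⟨_, v1.sc a, v2⟩), fun a => (mem_mul _ _ _).2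
        (univ_mem' fun b => by simpa only [Set.mem_ofPred_eq, mul_assoc] using hq.2 (a * b))⟩)
  refine ⟨p, ⟨by rw [odot_eq, hpp], fun I ⟨⟨q, hq⟩, hI⟩ => ?_⟩, fun C hC => ?_, A, ?_,
    fun ⟨m, n, h1, h2, h3, h4⟩ => noconf m n h1 h2 h3 h4⟩
  · obtain ⟨t, ht⟩ := hmin q
    have := (hI _ (hI q hq t).2 p).1
    rwa [odot_eq, odot_eq, ht] at this
  · by_contra hc
    exact Ultrafilter.compl_mem_iff_notMem.1 (p1 C fun ⟨v, v1, v2⟩ => hc ⟨v, v1.minIdem, v2⟩) hC
  · simpa using p2 1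

end Pool.Agent.Results.MP_d04c84_co.Counter
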